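import Pool.Agent.Helper25_CON.PDLem

/-!
Squad CON, module H_I: if no component is big and at most two components are mid, the form
modulo 2 has rank at most four.
-/

noncomputable section

namespace Pool.Agent.CON.H65

open Pool.Agent.H25Cong

variable {M : Type} [AddCommGroup M] {b : M → M → ℤ}

/-- two proportional roots of the same norm are equal up to sign -/
lemma dep_two (h : PD b) {C : Set M} {s : ℤ} (hC : Irr b C s) (h2 : ¬ Rk C 2) {x y : M}
    (hx : x ∈ C) (hy : y ∈ C) : (2 : ℤ) ∣ b x y := by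
  have h3 : ¬ LinearIndependent ℤ ![x, y] := by
    intro hl
    exact h2 ⟨![x, y], fun i => by fin_cases i <;> simpa, hl⟩
  rw [LinearIndependent.pair_iff] at h3
  push Not at h3
  obtain ⟨p, q, hpq, hne⟩ := h3
  have hs := hC.pos
  have e1 : b (p • x + q • y) x = 0 := by rw [hpq, h.zero_left]
  have e2 : b (p • x + q • y) y = 0 := by rw [hpq, h.zero_left]
  rw [h.add_left, h.zsmul_left, h.zsmul_left, hC.norm x hx, h.symm y x] at e1
  rw [h.add_left, h.zsmul_left, h.zsmul_left, hC.norm y hy] at e2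
  -- the determinant vanishes
  have e3 : b x y * b x y = (2 * s) * (2 * s) := by
    have hp : p * (b x y * b x y - (2 * s) * (2 * s)) = 0 := by
      linear_combination b x y * e2 - 2 * s * e1
    have hq : q * (b x y * b x y - (2 * s) * (2 * s)) = 0 := by
      linear_combination b x y * e1 - 2 * s * e2
    rcases mul_eq_zero.mp hp with h4 | h4
    · rcases mul_eq_zero.mp hq with h5 | h5
      · exact absurd h5 (hne h4)
      · linarith
    · linarith
  rcases mul_self_eq_mul_self_iff.mp e3 with h4 | h4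
  · exact ⟨s, h4⟩
  · exact ⟨-s, by rw [h4]; ring⟩

lemma rk_mono {C : Set M} (h : Rk C 2) : Rk C 1 := by
  obtain ⟨c, hc, hl⟩ := h
  exact ⟨fun _ => c 0, fun _ => hc 0, hl.comp (fun _ => 0) (fun a b _ => Subsingleton.elim a b)⟩

/-- bilinear extension of evenness -/
lemma even_closure (h : PD b) {C : Set M} (hC : ∀ x ∈ C, ∀ y ∈ C, (2 : ℤ) ∣ b x y) :
    ∀ x ∈ AddSubgroup.closure C, ∀ y ∈ AddSubgroup.closure C, (2 : ℤ) ∣ b x y := by
  intro x hx y hy
  refine h.closure_dvd (fun z hz => ?_) x hx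
  rw [h.symm]
  exact h.closure_dvd (fun w hw => by rw [h.symm]; exact hC z hz w hw) y hy

/-- a component which is neither big nor mid -/
lemma small_comp (hV : E_VAL) (h : PD b) {C : Set M} {s : ℤ} {r : ℕ} (hC : Irr b C s)
    (hr : ¬ Rk C (r + 1)) (h1 : ¬ Bg b C s) (h2 : ¬ Md b C s r) :
    ∀ x ∈ AddSubgroup.closure C, ∀ y ∈ AddSubgroup.closure C, (2 : ℤ) ∣ b x y := by
  by_cases hs : (2 : ℤ) ∣ s
  · intro x hx y hy
    exact hs.trans ((hV M b C s h hC x hx).1 y hy)
  · have hcap : ¬ Cap b C := fun hc => h1 ⟨hs, hc⟩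
    have hr2 : r < 2 := by
      by_contra hr2
      exact h2 ⟨hs, hcap, by omega⟩
    have hR : ¬ Rk C 2 := by
      intro hR
      interval_cases r
      · exact hr (rk_mono hR)
      · exact hr hR
    exact even_closure h fun x hx y hy => dep_two h hC hR hx hy

/-- a component which is not big: two generators modulo the radical -/
lemma two_comp (hV : E_VAL) (hT : E_TWO2) (h : PD b) {C : Set M} {s : ℤ} (hC : Irr b C s)
    (h1 : ¬ Bg b C s) : ∃ α β : M, ∀ x ∈ AddSubgroup.closure C, ∃ i j : ℤ,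
      ∀ y ∈ AddSubgroup.closure C, (2 : ℤ) ∣ b (x - i • α - j • β) y := by
  by_cases hs : (2 : ℤ) ∣ s
  · refine ⟨0, 0, fun x hx => ⟨0, 0, fun y hy => ?_⟩⟩
    simpa using hs.trans ((hV M b C s h hC x hx).1 y hy)
  · have hcap : ¬ Cap b C := fun hc => h1 ⟨hs, hc⟩
    obtain ⟨α, _, β, _, hh⟩ := hT M b C s h hC hs hcap
    exact ⟨α, β, hh⟩

/-- five vectors of length four are dependent modulo 2 -/
lemma dep_mod_two (a : Fin 5 → Fin 4 → ℤ) : ∃ z : Fin 5 → ℤ, (∀ l, (2 : ℤ) ∣ ∑ j, z j * a j l) ∧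
    ¬ ∀ j, (2 : ℤ) ∣ z j := by
  have : Fact (Nat.Prime 2) := ⟨Nat.prime_two⟩
  have key : ∀ t : ℤ, (t : ZMod 2) = 0 ↔ (2 : ℤ) ∣ t := fun t => by
    simpa using ZMod.intCast_zmod_eq_zero_iff_dvd t 2
  let A : (Fin 5 → ZMod 2) →ₗ[ZMod 2] (Fin 4 → ZMod 2) :=
    ∑ j : Fin 5, (LinearMap.proj j : (Fin 5 → ZMod 2) →ₗ[ZMod 2] ZMod 2).smulRight
      (fun l => (a j l : ZMod 2))
  have hA : ∀ v l, A v l = ∑ j, v j * (a j l : ZMod 2) := by
    intro v l
    simp [A, LinearMap.sum_apply, Finset.sum_apply]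
  have hker : LinearMap.ker A ≠ ⊥ := by
    apply LinearMap.ker_ne_bot_of_finrank_lt
    simp
  obtain ⟨v, hv, hv0⟩ := (Submodule.ne_bot_iff _).mp hker
  refine ⟨fun j => ((v j).val : ℤ), fun l => ?_, fun hall => hv0 ?_⟩
  · rw [← key]
    push_cast
    have := congrFun (LinearMap.mem_ker.mp hv) l
    rw [hA] at this
    simpa using this
  · funext j
    have := hall j
    rw [← key] at this
    push_cast at this
    simpa using this

theorem h_i (hV : E_VAL) (hT : E_TWO2) : H_I := by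
  intro M _ b k C s r i1 i2 h hC hbig hmid hI
  classical
  obtain ⟨c, -, hc⟩ := hI
  obtain ⟨α1, β1, H1⟩ := two_comp hV hT h (hC.irr i1) (hbig i1)
  obtain ⟨α2, β2, H2⟩ := two_comp hV hT h (hC.irr i2) (hbig i2)
  choose z hz hsum using fun j => hC.decomp (c j)
  choose p q hpq using fun j => H1 (z j i1) (hz j i1)
  choose p' q' hpq' using fun j => H2 (z j i2) (hz j i2)
  obtain ⟨w, hw, hne⟩ := dep_mod_two fun j => ![p j, q j, p' j, q' j]
  apply hne
  apply hc w
  intro y _
  obtain ⟨t, ht, rfl⟩ := hC.decomp y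
  have e1 : b (∑ j, w j • c j) (∑ i, t i) = ∑ i, ∑ j, w j * b (z j i) (t i) := by
    rw [h.sum_right]
    refine Finset.sum_congr rfl fun i _ => ?_
    rw [h.sum_left]
    refine Finset.sum_congr rfl fun j _ => ?_
    rw [h.zsmul_left, hsum j, hC.sum_comp h (hz j) (ht i)]
  rw [show ((2 : ℕ) : ℤ) = 2 from rfl, e1]
  refine Finset.dvd_sum fun i _ => ?_
  by_cases hi1 : i = i1
  · subst hi1
    have e2 : ∑ j, w j * b (z j i) (t i) = ∑ j, w j * b (z j i - p j • α1 - q j • β1) (t i) +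
        (∑ j, w j * p j) * b α1 (t i) + (∑ j, w j * q j) * b β1 (t i) := by
      rw [Finset.sum_mul, Finset.sum_mul, ← Finset.sum_add_distrib, ← Finset.sum_add_distrib]
      refine Finset.sum_congr rfl fun j _ => ?_
      rw [h.sub_left, h.sub_left, h.zsmul_left, h.zsmul_left]
      ring
    rw [e2]
    have h0 := hw 0
    have h1 := hw 1
    simp only [Matrix.cons_val_zero, Matrix.cons_val_one] at h0 h1
    exact dvd_add (dvd_add (Finset.dvd_sum fun j _ => dvd_mul_of_dvd_right (hpq j _ (ht i)) _)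
      (dvd_mul_of_dvd_left h0 _)) (dvd_mul_of_dvd_left h1 _)
  · by_cases hi2 : i = i2
    · subst hi2
      have e2 : ∑ j, w j * b (z j i) (t i) = ∑ j, w j * b (z j i - p' j • α2 - q' j • β2) (t i) +
          (∑ j, w j * p' j) * b α2 (t i) + (∑ j, w j * q' j) * b β2 (t i) := by
        rw [Finset.sum_mul, Finset.sum_mul, ← Finset.sum_add_distrib, ← Finset.sum_add_distrib]
        refine Finset.sum_congr rfl fun j _ => ?_
        rw [h.sub_left, h.sub_left, h.zsmul_left, h.zsmul_left]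
        ring
      rw [e2]
      have h2 := hw 2
      have h3 := hw 3
      simp only [Matrix.cons_val] at h2 h3
      exact dvd_add (dvd_add (Finset.dvd_sum fun j _ => dvd_mul_of_dvd_right (hpq' j _ (ht i)) _)
        (dvd_mul_of_dvd_left h2 _)) (dvd_mul_of_dvd_left h3 _)
    · exact Finset.dvd_sum fun j _ => dvd_mul_of_dvd_right
        (small_comp hV h (hC.irr i) (hC.rk' i) (hbig i) (hmid i hi1 hi2) _ (hz j i) _ (ht i)) _

end Pool.Agent.CON.H65

end
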